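import Pool.Agent.Helper88.AD.Upper
import Pool.Agent.Helper88.AD.TraceF
import Pool.Agent.Helper27.AD.Binom
import Pool.Agent.Helper90.AD.Enum
import Pool.Agent.Helper31.AD.Cybe
import Pool.Agent.Helper75.AD.Coef
import Pool.Agent.Helper32.AD.Asym

/-!
Growth of the dimensions of the spaces of arrow diagrams modulo 6T on the circle and on the
interval: both satisfy `log dim = d log d + O(d log log d)`.
-/

namespace Pool.Agent.Helper88.Kept.LogGrowthCcb3

open Pool.Agent.Helper88.AD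

theorem result :
    (∀ᶠ d : ℕ in Filter.atTop,
      ((d : ℝ) / (20 * Real.log d ^ 2)) ^ d ≤ (Module.finrank ℚ (AS d) : ℝ)) ∧
    (∀ d : ℕ, Module.finrank ℚ (AS d) ≤ Module.finrank ℚ (AI d)) ∧
    (∀ d : ℕ, Module.finrank ℚ (AI d) ≤ 2 ^ d * d.factorial) ∧
    Filter.Tendsto (fun d : ℕ => Real.log (Module.finrank ℚ (AS d)) / (d * Real.log d))
      Filter.atTop (nhds 1) ∧
    Filter.Tendsto (fun d : ℕ => Real.log (Module.finrank ℚ (AI d)) / (d * Real.log d))
      Filter.atTop (nhds 1) := by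
  have hB : StmtBinom := Pool.Agent.Helper27.AD.stmtBinom stmtTrace
    Pool.Agent.Helper31.AD.stmtCYBE Pool.Agent.Helper75.AD.stmtCoef Pool.Agent.Helper90.AD.stmtEnum
  have hS := Pool.Agent.Helper32.AD.stmtAsym (fun d => Module.finrank ℚ (AS d)) hB
  have hI : ∀ᶠ d : ℕ in Filter.atTop,
      ((d : ℝ) / (20 * Real.log d ^ 2)) ^ d ≤ (Module.finrank ℚ (AI d) : ℝ) :=
    hS.mono fun d hd => hd.trans (by exact_mod_cast finrank_AS_le_AI d)
  have uS : ∀ d : ℕ, Module.finrank ℚ (AS d) ≤ 2 ^ d * d.factorial :=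
    fun d => (finrank_AS_le_AI d).trans (finrank_AI_le d)
  exact ⟨hS, finrank_AS_le_AI, finrank_AI_le,
    Pool.Agent.Helper32.AD.stmtLog (fun d => Module.finrank ℚ (AS d)) hS uS,
    Pool.Agent.Helper32.AD.stmtLog (fun d => Module.finrank ℚ (AI d)) hI finrank_AI_le⟩

end Pool.Agent.Helper88.Kept.LogGrowthCcb3
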