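import Mathlib
import Pool.Agent.Helper88.TwinMain

/-!
# Transitions mod 4 in random models of the twin prime pairs

Problem MP_74f661_nt.  `R n` is the event that `n` is chosen (the chosen integers model the first
members of twin prime pairs; all are odd), adapted to a filtration `ℱ`.  Independence is not
assumed.  The conditional probabilities of choosing `n + 1` given the past are only asked to have
an infinite sum and to be balanced modulo 4, in the sense that their sums over intervals, weighted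
by the nontrivial character modulo 4, tend to `0` as the interval moves to infinity (for instance:
`c / (log n)^2` times the indicator of `n ≡ 5 mod 6`, or of any union of residue classes modulo
`4 q` having equally many classes `1` and `3` modulo 4, and many dependent models).

Then almost surely, for all `a, b ∈ {1, 3}`, among the chosen `n ≤ x` with `n ≡ a mod 4` the
proportion of those followed by a chosen integer `≡ b mod 4` tends to `1 / 2`.
-/

open MeasureTheory ProbabilityTheory Filter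

namespace Pool.Agent.Results.MP_74f661_nt.RandomModel

theorem result {Ω : Type*} [mΩ : MeasurableSpace Ω] (μ : Measure Ω) [IsProbabilityMeasure μ]
    (ℱ : Filtration ℕ mΩ) (R : ℕ → Set Ω) (hR : ∀ n, MeasurableSet[ℱ n] (R n))
    (hodd : ∀ n ω, ω ∈ R n → n % 4 = 1 ∨ n % 4 = 3)
    (hdiv : ∀ᵐ ω ∂μ, Tendsto (fun N => ∑ n ∈ Finset.range N,
      (μ[(R (n + 1)).indicator (fun _ => (1 : ℝ)) | ℱ n]) ω) atTop atTop)
    (hbal : ∀ᵐ ω ∂μ, ∀ ε : ℝ, 0 < ε → ∃ M : ℕ, ∀ m, M ≤ m → ∀ k,
      |∑ i ∈ Finset.range k, ((ZMod.χ₄ ((m + i + 1 : ℕ) : ZMod 4) : ℤ) : ℝ) *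
        (μ[(R (m + i + 1)).indicator (fun _ => (1 : ℝ)) | ℱ (m + i)]) ω| ≤ ε) :
    ∀ᵐ ω ∂μ, ∀ a b : ℕ, (a = 1 ∨ a = 3) → (b = 1 ∨ b = 3) →
      Tendsto (fun x : ℝ =>
        ({n : ℕ | (n : ℝ) ≤ x ∧ ω ∈ R n ∧ n % 4 = a ∧
          ∃ m, n < m ∧ ω ∈ R m ∧ (∀ k, n < k → k < m → ω ∉ R k) ∧ m % 4 = b}.ncard : ℝ) /
        ({n : ℕ | (n : ℝ) ≤ x ∧ ω ∈ R n ∧ n % 4 = a}.ncard : ℝ)) atTop (nhds (1 / 2)) := by
  have hmain := Pool.Agent.Helper88.Twin.main (μ := μ) hR hodd hdiv (by
    filter_upwards [hbal] with ω hω ε hε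
    obtain ⟨M, hM⟩ := hω ε hε
    refine ⟨M, fun m hm k => ?_⟩
    refine le_trans (le_of_eq ?_) (hM m hm k)
    congr 1
    refine Finset.sum_congr rfl fun i _ => ?_
    rw [Pool.Agent.Helper88.Twin.chi_eq])
  filter_upwards [hmain] with ω hω a b ha hb
  have h1 := (hω a b ha hb).comp (tendsto_nat_floor_atTop (α := ℝ))
  refine h1.congr' ?_
  filter_upwards [eventually_ge_atTop (0 : ℝ)] with x hx
  simp only [Function.comp]
  rw [Pool.Agent.Helper88.Twin.PP_eq_ncard hodd, Pool.Agent.Helper88.Twin.pi_eq_ncard hodd]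
  have hfl : ∀ n : ℕ, n ≤ ⌊x⌋₊ ↔ (n : ℝ) ≤ x := fun n => Nat.le_floor_iff hx
  simp only [hfl]

end Pool.Agent.Results.MP_74f661_nt.RandomModel
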